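import Pool.Agent.Lib.MP_97eeef_nt.NPTower

namespace Pool.Agent.Results.MP_97eeef_nt.GlobalObstruction

open Pool.Agent.Lib.MP_97eeef_nt

/-- There is a field `K` of solvable algebraic numbers such that every solvable algebraic number
has degree a power of two over `K`, all completions of `K` are algebraically closed, and the
genus one curve `x ^ 2 + y ^ 2 + z ^ 2 = 0`, `x ^ 2 - y ^ 2 - w ^ 2 = 0` has no point over `K`. -/
theorem result : ∃ K : IntermediateField ℚ (AlgebraicClosure ℚ), K ≤ Qsolv ∧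
    (∀ x ∈ Qsolv, ∃ n : ℕ, (minpoly K x).natDegree = 2 ^ n) ∧
    IsEmpty (K →+* ℝ) ∧
    (∀ (p : ℕ) [Fact p.Prime] (σ : K →+* PadicAlgCl p),
      IntermediateField.adjoin ℚ_[p] (Set.range σ) = ⊤) ∧
    ∀ x y z w : K, x ^ 2 + y ^ 2 + z ^ 2 = 0 → x ^ 2 - y ^ 2 - w ^ 2 = 0 →
      x = 0 ∧ y = 0 ∧ z = 0 ∧ w = 0 := by
  obtain ⟨K, h1, h2, h3, h4, h5⟩ := NP.exists_field
  refine ⟨K, h1, fun x hx => NP.two_pow h1 h4 hx, h3, NP.loc_top h1 h4 h5, fun x y z w e1 e2 => ?_⟩
  have h := h2.sub ![x, y, z, w]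
    (by simp only [NP.B1, Matrix.cons_val]; linear_combination e1)
    (by simp only [NP.B2, Matrix.cons_val]; linear_combination e2)
  exact ⟨congrFun h 0, congrFun h 1, congrFun h 2, congrFun h 3⟩

end Pool.Agent.Results.MP_97eeef_nt.GlobalObstruction
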