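import Pool.Agent.Lib.MP_97eeef_nt.QuarticMain
import Pool.Agent.Lib.MP_97eeef_nt.QuarticDefs

namespace Pool.Agent.Results.MP_97eeef_nt.QuarticS4

open Pool.Agent.Lib.MP_97eeef_nt.Quartic

theorem result (n : ℕ) (hn : n ≤ 4) : ∃ G : MvPolynomial (Fin n) ℤ, G.IsHomogeneous 4 ∧
    NonsingularOver G (AlgebraicClosure ℚ) ∧
    ∀ (K : Type) [Field K] [CharZero K] [IsGalois ℚ K], NoS4 (K ≃ₐ[ℚ] K) → NoZero G K :=
  main n hn

end Pool.Agent.Results.MP_97eeef_nt.QuarticS4
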